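import Mathlib

set_option autoImplicit false

namespace Pool.Agent.Results.MP_c5d52e_co.InvolutionBound

open Finset Classical

section Group

variable {G : Type} [AddCommGroup G] [Fintype G]

/-- The `h`-fold signed sumset `h_± A`. -/
def hpm (h : ℕ) (A : Finset G) : Set G :=
  {x | ∃ l : G → ℤ, ∑ a ∈ A, |l a| = (h : ℤ) ∧ x = ∑ a ∈ A, l a • a}

/-- `A` is a `B_2` set over `ℤ`: the set `2_± A` has `2 |A|^2` elements. -/
def IsB2 (A : Finset G) : Prop := (hpm 2 A).ncard = 2 * A.card ^ 2

variable (G) in
/-- `σ_±(G,2)`: the largest size of a `B_2` set over `ℤ` in `G` (the empty set gives `0`). -/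
noncomputable def sigma : ℕ := sSup {m | ∃ A : Finset G, A.card = m ∧ IsB2 A}

variable (G) in
/-- The number of `x` in `G` with `x + x = 0`. -/
noncomputable def two : ℕ := ((Finset.univ : Finset G).filter (fun x => x + x = 0)).card

/-- `hpm` as a finset. -/
noncomputable def HF (h : ℕ) (A : Finset G) : Finset G :=
  Finset.univ.filter (fun x => x ∈ hpm h A)

/-- Size plus number of elements equal to their negatives. -/
noncomputable def f (X : Finset G) : ℕ := X.card + (X.filter (fun x => x = -x)).card

theorem f_mono {X Y : Finset G} (h : X ⊆ Y) : f X ≤ f Y := by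
  unfold f
  exact Nat.add_le_add (Finset.card_le_card h)
    (Finset.card_le_card (Finset.filter_subset_filter _ h))

theorem f_union (X Y : Finset G) : f (X ∪ Y) ≤ f X + f Y := by
  unfold f
  rw [Finset.filter_union]
  have h1 := Finset.card_union_le X Y
  have h2 := Finset.card_union_le (X.filter (fun x => x = -x)) (Y.filter (fun x => x = -x))
  omega

theorem f_biUnion (s : Finset ℕ) (g : ℕ → Finset G) :
    f (s.biUnion g) ≤ ∑ r ∈ s, f (g r) := by
  induction s using Finset.induction_on with
  | empty => simp [f]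
  | insert a s ha ih =>
    rw [Finset.biUnion_insert, Finset.sum_insert ha]
    exact le_trans (f_union _ _) (Nat.add_le_add_left ih _)

theorem f_sym (T : Finset G) : f (T ∪ T.image (fun x => -x)) ≤ 2 * T.card := by
  unfold f
  have h1 : ((T ∪ T.image (fun x => -x)).filter (fun x => x = -x)).card
      ≤ (T ∩ T.image (fun x => -x)).card := by
    apply Finset.card_le_card
    intro x hx
    rw [Finset.mem_filter, Finset.mem_union, Finset.mem_image] at hx
    rw [Finset.mem_inter, Finset.mem_image]
    obtain ⟨hx1, hx2⟩ := hx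
    rcases hx1 with h | ⟨y, hy, hyx⟩
    · exact ⟨h, x, h, hx2.symm⟩
    · have hxy : x = y := by rw [hx2, ← hyx, neg_neg]
      rw [hxy]
      exact ⟨hy, y, hy, by rw [← hxy]; exact hx2.symm⟩
  have h2 := Finset.card_union_add_card_inter T (T.image (fun x => -x))
  have h3 : (T.image (fun x => -x)).card ≤ T.card := Finset.card_image_le
  omega

theorem hpm_neg {h : ℕ} {A : Finset G} {x : G} (hx : x ∈ hpm h A) :
    -x ∈ hpm h A := by
  obtain ⟨l, hl, rfl⟩ := hx
  refine ⟨fun a => - l a, ?_, ?_⟩
  · simpa [abs_neg] using hl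
  · simp [Finset.sum_neg_distrib]

theorem step (h : ℕ) (A : Finset G) (a : G) (ha : a ∉ A) :
    HF h (insert a A) ⊆ HF h A ∪ (Finset.range h).biUnion (fun r =>
      ((HF r A).image (fun y => (h - r) • a + y)) ∪
        (((HF r A).image (fun y => (h - r) • a + y)).image (fun x => -x))) := by
  intro x hx
  have hx' : x ∈ hpm h (insert a A) := (Finset.mem_filter.mp hx).2
  obtain ⟨l, hl, hxe⟩ := hx'
  rw [Finset.sum_insert ha] at hl hxe
  have hnn : 0 ≤ ∑ b ∈ A, |l b| := Finset.sum_nonneg (fun _ _ => abs_nonneg _)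
  have habs : |l a| = ((l a).natAbs : ℤ) := (Int.natCast_natAbs (l a)).symm
  have hk : (l a).natAbs ≤ h := by omega
  have hy : ∑ b ∈ A, l b • b ∈ hpm (h - (l a).natAbs) A :=
    ⟨l, by omega, rfl⟩
  by_cases h0 : l a = 0
  · apply Finset.mem_union_left
    refine Finset.mem_filter.mpr ⟨Finset.mem_univ _, ?_⟩
    rw [h0] at hy hxe
    simp only [Int.natAbs_zero, Nat.sub_zero] at hy
    rw [hxe]; simpa using hy
  · apply Finset.mem_union_right
    have hkpos : 0 < (l a).natAbs := Int.natAbs_pos.mpr h0
    refine Finset.mem_biUnion.mpr ⟨h - (l a).natAbs, Finset.mem_range.mpr (by omega), ?_⟩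
    have hr : h - (h - (l a).natAbs) = (l a).natAbs := by omega
    rw [hr]
    rcases Int.natAbs_eq (l a) with hp | hp
    · apply Finset.mem_union_left
      refine Finset.mem_image.mpr ⟨∑ b ∈ A, l b • b,
        Finset.mem_filter.mpr ⟨Finset.mem_univ _, hy⟩, ?_⟩
      rw [hxe]
      congr 1
      conv_rhs => rw [hp]
      rw [natCast_zsmul]
    · apply Finset.mem_union_right
      refine Finset.mem_image.mpr ⟨(l a).natAbs • a + -(∑ b ∈ A, l b • b),
        Finset.mem_image.mpr ⟨-(∑ b ∈ A, l b • b),
          Finset.mem_filter.mpr ⟨Finset.mem_univ _, hpm_neg hy⟩, rfl⟩, ?_⟩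
      rw [hxe, neg_add, neg_neg]
      congr 1
      conv_rhs => rw [hp]
      rw [neg_zsmul, natCast_zsmul]

theorem zero_le_one (B : Finset G) : (HF 0 B).card ≤ 1 := by
  rw [Finset.card_le_one]
  have h0 : ∀ x ∈ HF 0 B, x = 0 := by
    intro x hx
    obtain ⟨l, hl, hxe⟩ := (Finset.mem_filter.mp hx).2
    rw [hxe]
    apply Finset.sum_eq_zero
    intro b hb
    have := (Finset.sum_eq_zero_iff_of_nonneg (fun x _ => abs_nonneg (l x))).mp
      (by exact_mod_cast hl) b hb
    rw [abs_eq_zero.mp this]; simp
  intro x hx y hy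
  rw [h0 x hx, h0 y hy]

theorem empty_pos {h : ℕ} (hpos : 1 ≤ h) : HF h (∅ : Finset G) = ∅ := by
  apply Finset.eq_empty_of_forall_notMem
  intro x hx
  obtain ⟨l, hl, _⟩ := (Finset.mem_filter.mp hx).2
  simp at hl
  omega

theorem ins (h : ℕ) (A : Finset G) (a : G) (ha : a ∉ A) :
    f (HF h (insert a A)) ≤ f (HF h A) + ∑ r ∈ Finset.range h, 2 * (HF r A).card := by
  calc f (HF h (insert a A))
      ≤ f (HF h A ∪ (Finset.range h).biUnion (fun r =>
          ((HF r A).image (fun y => (h - r) • a + y)) ∪
            (((HF r A).image (fun y => (h - r) • a + y)).image (fun x => -x)))) :=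
        f_mono (step h A a ha)
    _ ≤ f (HF h A) + ∑ r ∈ Finset.range h,
          f (((HF r A).image (fun y => (h - r) • a + y)) ∪
            (((HF r A).image (fun y => (h - r) • a + y)).image (fun x => -x))) :=
        le_trans (f_union _ _) (Nat.add_le_add_left (f_biUnion _ _) _)
    _ ≤ f (HF h A) + ∑ r ∈ Finset.range h, 2 * (HF r A).card := by
        apply Nat.add_le_add_left
        apply Finset.sum_le_sum
        intro r _
        refine le_trans (f_sym _) ?_
        apply Nat.mul_le_mul_left
        exact Finset.card_image_le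

theorem bound_one (A : Finset G) : f (HF 1 A) ≤ 2 * A.card := by
  induction A using Finset.induction_on with
  | empty => rw [empty_pos le_rfl]; simp [f]
  | insert a A ha ih =>
    have h1 := ins 1 A a ha
    rw [Finset.sum_range_one] at h1
    have h2 := zero_le_one A
    rw [Finset.card_insert_of_notMem ha]
    omega

theorem bound_two (A : Finset G) : f (HF 2 A) ≤ 2 * A.card ^ 2 := by
  induction A using Finset.induction_on with
  | empty => rw [empty_pos (by norm_num)]; simp [f]
  | insert a A ha ih =>
    have h1 := ins 2 A a ha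
    rw [Finset.sum_range_succ, Finset.sum_range_one] at h1
    have h2 := zero_le_one A
    have h3 := bound_one A
    have h4 : (HF 1 A).card ≤ 2 * A.card := le_trans (by unfold f; omega) h3
    rw [Finset.card_insert_of_notMem ha]
    have h5 : 2 * (A.card + 1) ^ 2 = 2 * A.card ^ 2 + 4 * A.card + 2 := by ring
    rw [h5]
    omega

theorem self_iff (x : G) : x = -x ↔ x + x = 0 := by
  constructor
  · intro h; nth_rewrite 2 [h]; exact add_neg_cancel x
  · intro h; exact eq_neg_of_add_eq_zero_left h

/-- A `B_2` set over `ℤ` satisfies `2 |A|^2 + |G[2]| ≤ |G|`. -/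
theorem main (A : Finset G) (hA : IsB2 A) : 2 * A.card ^ 2 + two G ≤ Fintype.card G := by
  have h1 := bound_two A
  have h2 : (HF 2 A).card = 2 * A.card ^ 2 := by
    have : (hpm 2 A) = ((HF 2 A : Finset G) : Set G) := by
      ext x; simp [HF]
    unfold IsB2 at hA
    rw [this, Set.ncard_coe_finset] at hA
    exact hA
  unfold f at h1
  have h3 : ((HF 2 A).filter (fun x => x = -x)).card = 0 := by omega
  have h4 : Disjoint (HF 2 A) ((Finset.univ : Finset G).filter (fun x => x + x = 0)) := by
    rw [Finset.disjoint_left]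
    intro x hx hx2
    have : x ∈ (HF 2 A).filter (fun x => x = -x) :=
      Finset.mem_filter.mpr ⟨hx, (self_iff x).mpr (Finset.mem_filter.mp hx2).2⟩
    rw [Finset.card_eq_zero.mp h3] at this
    exact absurd this (Finset.notMem_empty x)
  have h5 := Finset.card_union_of_disjoint h4
  have h6 : (HF 2 A ∪ (Finset.univ : Finset G).filter (fun x => x + x = 0)).card
      ≤ Fintype.card G := Finset.card_le_univ _
  unfold two
  rw [← h2]
  omega

theorem sigma_mem : ∃ A : Finset G, A.card = sigma G ∧ IsB2 A := by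
  have hne : {m | ∃ A : Finset G, A.card = m ∧ IsB2 A}.Nonempty := by
    refine ⟨0, ∅, rfl, ?_⟩
    unfold IsB2
    have : hpm 2 (∅ : Finset G) = ∅ := by
      ext x
      simp only [Set.mem_empty_iff_false, iff_false]
      rintro ⟨l, hl, _⟩
      simp at hl
    rw [this]; simp
  have hb : BddAbove {m | ∃ A : Finset G, A.card = m ∧ IsB2 A} :=
    ⟨Fintype.card G, by rintro m ⟨A, rfl, _⟩; exact Finset.card_le_univ A⟩
  exact Nat.sSup_mem hne hb

end Group

/-- Every finite abelian group `G` satisfies `2 σ_±(G,2)² + |G[2]| ≤ |G|`. -/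
theorem result (G : Type) [AddCommGroup G] [Fintype G] :
    2 * sigma G ^ 2 + two G ≤ Fintype.card G := by
  obtain ⟨A, hA, hB⟩ := sigma_mem (G := G)
  rw [← hA]
  exact main A hB

end Pool.Agent.Results.MP_c5d52e_co.InvolutionBound
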